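import Pool.Agent.W541.DL.Stm

set_option autoImplicit false

open MeasureTheory Filter Topology Set

namespace Pool.Agent.W431.DL.SHIFT

open Pool.Agent.W541.DL

lemma len_le (f : R4 → ℝ) (g : ℝ → ℝ) {s t : ℝ} (n : ℕ) (τ : ℕ → ℝ)
    (h : ∀ i < n, τ i < τ (i + 1)) (h0 : τ 0 = s) (h1 : τ n = t) :
    len f g s t ≤ ((∑ i ∈ Finset.range n,
      val f (g (τ i)) (τ i) (g (τ (i + 1))) (τ (i + 1)) : ℝ) : EReal) := by
  unfold len
  exact iInf_le (fun q : {q : ℕ × (ℕ → ℝ) // (∀ i < q.1, q.2 i < q.2 (i + 1)) ∧ q.2 0 = s ∧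
    q.2 q.1 = t} => ((∑ i ∈ Finset.range q.1.1,
      val f (g (q.1.2 i)) (q.1.2 i) (g (q.1.2 (i + 1))) (q.1.2 (i + 1)) : ℝ) : EReal))
    ⟨(n, τ), h, h0, h1⟩

lemma len1 (f : R4 → ℝ) (g : ℝ → ℝ) {x s e : ℝ} (he : 0 < e) (h0 : g s = x) (h1 : g (s + e) = x) :
    len f g s (s + e) ≤ ((val f x s x (s + e) : ℝ) : EReal) := by
  refine (len_le f g 1 (fun k => if k = 0 then s else s + e) ?_ ?_ ?_).trans ?_
  · intro i hi
    have : i = 0 := by omega
    subst this
    simpa using he
  · simp
  · simp
  · simp [h0, h1]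

lemma len2 (f : R4 → ℝ) (g : ℝ → ℝ) {x s e r : ℝ} (hr : s < r) (hr' : r < s + e) (h0 : g s = x)
    (h1 : g (s + e) = x) :
    len f g s (s + e) ≤ ((val f x s (g r) r + val f (g r) r x (s + e) : ℝ) : EReal) := by
  refine (len_le f g 2 (fun k => if k = 0 then s else if k = 1 then r else s + e) ?_ ?_ ?_).trans ?_
  · intro i hi
    interval_cases i
    · simpa using hr
    · simpa using hr'
  · simp
  · simp
  · simp [Finset.sum_range_succ, h0, h1]

lemma int_le {h : ℝ × ℝ → ℝ} (hc : Continuous h) {g : ℝ → ℝ} {s e K : ℝ} (he : 0 < e)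
    (hg : ContinuousOn g (Icc s (s + e))) (hK : ∀ r ∈ Icc s (s + e), h (g r, r) ≤ K) :
    ∫ r in s..(s + e), h (g r, r) ≤ K * e := by
  have hcont : ContinuousOn (fun r => h (g r, r)) (Icc s (s + e)) :=
    hc.comp_continuousOn (hg.prodMk continuousOn_id)
  have hle : s ≤ s + e := by linarith
  have h1 : ∫ r in s..(s + e), h (g r, r) ≤ ∫ _ in s..(s + e), K := by
    refine intervalIntegral.integral_mono_on hle ?_ ?_ hK
    · exact ContinuousOn.intervalIntegrable (by rwa [uIcc_of_le hle])
    · exact intervalIntegrable_const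
  rw [intervalIntegral.integral_const] at h1
  simp only [add_sub_cancel_left, smul_eq_mul] at h1
  linarith [mul_comm e K]

theorem main : S_SHIFT := by
  intro h H c f x s e a b he hc hH H0 hax hxb hneg
  constructor
  · unfold shiftVal
    refine iSup_le fun g => ?_
    obtain ⟨g, hg, g0, g1⟩ := g
    have e1 := len1 f g he g0 g1
    have e2 := int_le hc he hg (fun r _ => hH (g r, r))
    calc _ ≤ ((val f x s x (s + e) : ℝ) : EReal) + ((H * e : ℝ) : EReal) := by
          refine add_le_add e1 ?_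
          exact_mod_cast e2
      _ = _ := by rw [← EReal.coe_add]
  · intro hyp
    unfold shiftVal
    refine iSup_le fun g => ?_
    obtain ⟨g, hg, g0, g1⟩ := g
    simp only at g0 g1 hg
    by_cases hin : ∀ r ∈ Icc s (s + e), a ≤ g r ∧ g r ≤ b
    · have e1 := len1 f g he g0 g1
      have e2 : ∫ r in s..(s + e), h (g r, r) ≤ (-c) * e :=
        int_le hc he hg (fun r hr => hneg _ _ (hin r hr).1 (hin r hr).2 hr.1 hr.2)
      calc _ ≤ ((val f x s x (s + e) : ℝ) : EReal) + (((-c) * e : ℝ) : EReal) := by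
            refine add_le_add e1 ?_
            exact_mod_cast e2
        _ = _ := by rw [← EReal.coe_add]; congr 1; ring
    · push Not at hin
      obtain ⟨r0, hr0, hout⟩ := hin
      have hr0s : r0 ≠ s := by
        rintro rfl
        have := hout (by rw [g0]; exact hax.le)
        rw [g0] at this
        linarith
      have hr0e : r0 ≠ s + e := by
        rintro rfl
        have := hout (by rw [g1]; exact hax.le)
        rw [g1] at this
        linarith
      have hs0 : s < r0 := lt_of_le_of_ne hr0.1 (Ne.symm hr0s)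
      have h0e : r0 < s + e := lt_of_le_of_ne hr0.2 hr0e
      have hg' : ContinuousOn g (Icc s r0) := hg.mono (Icc_subset_Icc le_rfl hr0.2)
      have key : ∃ r, s < r ∧ r < s + e ∧ (g r = a ∨ g r = b) := by
        by_cases ha : a ≤ g r0
        · have hb := hout ha
          obtain ⟨r, hr, hgr⟩ := intermediate_value_Icc hs0.le hg'
            (show b ∈ Icc (g s) (g r0) from ⟨by rw [g0]; exact hxb.le, hb.le⟩)
          refine ⟨r, lt_of_le_of_ne hr.1 ?_, lt_of_le_of_lt hr.2 h0e, Or.inr hgr⟩
          rintro rfl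
          rw [g0] at hgr
          linarith
        · push Not at ha
          obtain ⟨r, hr, hgr⟩ := intermediate_value_Icc' hs0.le hg'
            (show a ∈ Icc (g r0) (g s) from ⟨ha.le, by rw [g0]; exact hax.le⟩)
          refine ⟨r, lt_of_le_of_ne hr.1 ?_, lt_of_le_of_lt hr.2 h0e, Or.inl hgr⟩
          rintro rfl
          rw [g0] at hgr
          linarith
      obtain ⟨r, hr1, hr2, hq⟩ := key
      have e1 := len2 f g hr1 hr2 g0 g1
      have e2 := int_le hc he hg (fun r _ => hH (g r, r))
      have e3 := hyp r hr1 hr2 (g r) hq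
      calc _ ≤ ((val f x s (g r) r + val f (g r) r x (s + e) : ℝ) : EReal) +
            ((H * e : ℝ) : EReal) := by
            refine add_le_add e1 ?_
            exact_mod_cast e2
        _ = ((val f x s (g r) r + val f (g r) r x (s + e) + H * e : ℝ) : EReal) := by
            rw [← EReal.coe_add]
        _ ≤ _ := by exact_mod_cast e3

end Pool.Agent.W431.DL.SHIFT
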